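import Pool.Agent.Helper36.UF.Box
import Pool.Agent.Helper36.UF.Wit

/-!
# Witnesses of availability (project UF, MP_409f7f_co)
-/

namespace Pool.Agent.Helper36.UF

open Pool.Agent.Helper17.UF

/-- Claims and routes of a class and a member. -/
def dat (c q : Nat) : List (Nat × List Nat) :=
  match c with
  | 0 => d0_0
  | 1 => d1_0
  | 3 => d3_0
  | 5 => d5_0
  | 7 => d7_0
  | 15 => d15_0
  | 16 => d16_0
  | 17 => match q with
    | 0 => d17_0
    | _ => d17_2
  | 19 => d19_0
  | 21 => d21_0
  | 23 => d23_0
  | 31 => d31_0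
  | _ => []

/-- The family of claims. -/
def Rep : Family := fun c q => (dat c q).map fun T => clmN T.1

/-- Class of the claim with index `i` of the family. -/
def repC (i : Nat) : Nat := fld (fld repW (Nat.mul 26 i) 26) 0 5

/-- Member of the claim with index `i` of the family. -/
def repQ (i : Nat) : Nat := fld (fld repW (Nat.mul 26 i) 26) 5 2

/-- Code of the claim with index `i` of the family. -/
def repK (i : Nat) : Nat := Nat.shiftRight (fld repW (Nat.mul 26 i) 26) 7

/-- The claim with index `i` belongs to the family. -/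
def repOK (i : Nat) : Bool :=
  canon.any (fun c => Nat.beq c (repC i)) &&
    (match Nat.beq (repC i) 17 with
      | true => Nat.beq (repQ i) 0 || Nat.beq (repQ i) 2
      | false => Nat.beq (repQ i) 0) &&
    (dat (repC i) (repQ i)).any fun T => Nat.beq T.1 (repK i)

/-- Rotation number. -/
def rotN (n : Nat) : Fin 4 :=
  match n with
  | 0 => 0
  | 1 => 1
  | 2 => 2
  | _ => 3

/-- Check of a witness for the claim `τ`. -/
def wOK (τ : Clm) (o idx : Nat) (m : Bool) (r : Fin 4) (rv : Bool) : Bool :=
  Nat.blt idx nRep && imgOK m r (repC idx) (Nat.mod o 32) &&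
    Nat.beq (memImg m (repC idx) (repQ idx)) (Nat.div o 32) &&
    (((clmN (repK idx)).act m r).revIf rv).leB τ

/-- Union of the options of `k` packed witnesses. -/
def wMask (τ : Clm) : Nat → Nat → Nat
  | 0, _ => 0
  | k + 1, n => Nat.lor
    (match wOK τ (fld n 0 7) (fld n 7 8) (bitN n 15) (rotN (fld n 16 2)) (bitN n 18) with
      | true => Nat.pow 2 (fld n 0 7)
      | false => 0) (wMask τ k (Nat.shiftRight n 19))

/-- Check of a list of packed witnesses. -/
def chkW : Nat → List Nat → Bool
  | _, [] => true
  | i, w :: ws => Nat.beq (mskAt i) (wMask (clmAt i) (fld w 0 8) (Nat.shiftRight w 8)) &&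
    chkW (Nat.succ i) ws

end Pool.Agent.Helper36.UF
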