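import Pool.Agent.Helper36.UF.Data

/-!
# Masks of routes and covers of the options (project UF, MP_409f7f_co)
-/

namespace Pool.Agent.Helper36.UF

open Pool.Agent.Helper17.UF

/-- All options. -/
abbrev fullM : Nat := 0xffffffffffffffffffffffff

/-- Options of the kid at `X` for which the route can be used. -/
def maskF (X : Lb) : List Nat → Lb → Nat → Nat
  | [], _, acc => acc
  | c :: cs, Z, acc =>
    match bitN c 0 with
    | true => maskF X cs (Z.ordL (clmAt (Nat.div c 2)).j)
        (match decide (Z = X) with
          | true => Nat.land acc (mskAt (Nat.div c 2))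
          | false => acc)
    | false =>
      match segAt (Nat.div c 2) with
      | ⟨_, _, _, _, _, _, Z', _, _⟩ => maskF X cs Z' acc

/-- Codes of the steps of a route. -/
def codesN : Nat → Nat → List Nat
  | 0, _ => []
  | k + 1, n => fld n 0 10 :: codesN k (Nat.shiftRight n 10)

/-- Codes of the steps of a packed route. -/
def rt (n : Nat) : List Nat := codesN (fld n 0 4) (Nat.shiftRight n 4)

/-- Sides of a class that carry cubes. -/
def kids (c : Nat) : List Lb := [Lb.s0, Lb.s1, Lb.s2, Lb.s3, Lb.o].filter fun X => has c X

/-- Union of the masks of the first kid. -/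
def orHd : List (List Nat) → Nat
  | [] => 0
  | [] :: Bs => orHd Bs
  | (b :: _) :: Bs => Nat.lor b (orHd Bs)

/-- The boxes that contain the option `o` of the first kid. -/
def sel (o : Nat) : List (List Nat) → List (List Nat)
  | [] => []
  | [] :: Bs => sel o Bs
  | (b :: B) :: Bs =>
    match bitN b o with
    | true => B :: sel o Bs
    | false => sel o Bs

/-- All the options. -/
def optL : List Nat := [0, 1, 2, 3, 4, 5, 6, 7, 8, 9, 10, 11, 12, 13, 14, 15, 16, 17, 18, 19, 20, 21,
  22, 23, 24, 25, 26, 27, 28, 29, 30, 31, 49, 50, 52, 56, 81, 82, 84, 88]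

/-- The boxes cover the product of the masks. -/
def covB : List Nat → List (List Nat) → Bool
  | [], Bs => match Bs with
    | [] => false
    | _ :: _ => true
  | [A], Bs => Nat.beq (Nat.land A (orHd Bs)) A
  | A :: As, Bs => optL.all fun o =>
    match bitN A o with
    | true => covB As (sel o Bs)
    | false => true

/-- Number of a label. -/
def lbi : Lb → Nat
  | Lb.s0 => 0 | Lb.s1 => 1 | Lb.s2 => 2 | Lb.s3 => 3 | Lb.o => 4 | Lb.p => 5

/-- Validity of the route `r` for the claim `κ` in the class `c`. -/
def rOK (c : Nat) (κ : Clm) (r : Nat) : Bool :=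
  routeF segAt clmAt nSeg (fun X => !(has c X)) κ.j κ.t κ.g (rt r) κ.i Lb.p κ.s [] none

/-- The box of the route `r`. -/
def box (c : Nat) (κ : Clm) (r : Nat) : List Nat := (kids c).map fun X => maskF X (rt r) κ.i fullM

/-- Check of a target. -/
def chkR (c : Nat) (T : Nat × List Nat) : Bool := T.2.all fun r => rOK c (clmN T.1) r

/-- Check of a target. -/
def chkC (c : Nat) (T : Nat × List Nat) : Bool :=
  covB ((kids c).map fun X => amAt c (lbi X)) (T.2.map fun r => box c (clmN T.1) r)

/-- The options of the kid at `o` that go with the option `a` of the kid at `s0`. -/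
def selO (a : Nat) (T : Nat × List Nat) : Nat :=
  orHd (sel a (T.2.map fun r => box 17 (clmN T.1) r))

/-- Intersection over the targets. -/
def andO (a : Nat) : List (Nat × List Nat) → Nat
  | [] => fullM
  | T :: Ts => Nat.land (selO a T) (andO a Ts)

/-- Mirror image of an option. -/
def mirN (a : Nat) : Nat :=
  match mirO (Nat.mod a 32, Nat.div a 32) with
  | (c, q) => Nat.add c (Nat.mul 32 q)

/-- Check of the class 17. -/
def chkP (D0 D2 : List (Nat × List Nat)) : Bool :=
  optL.all fun a =>
    match bitN (amAt 17 0) a with
    | true => optL.all fun b =>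
      match bitN (amAt 17 4) b with
      | true => bitN (andO a D0) b || bitN (andO (mirN a) D0) (mirN b) ||
          (bitN (andO a D2) b && bitN (andO (mirN a) D2) (mirN b))
      | false => true
    | false => true

end Pool.Agent.Helper36.UF
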