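import Pool.Agent.Helper17.UF.Cert

/-!
# Decoding of packed certificate data (project UF, MP_409f7f_co)
-/

namespace Pool.Agent.Helper36.UF

open Pool.Agent.Helper17.UF

/-- The field of width `w` bits that starts at bit `k`. -/
def fld (n k w : Nat) : Nat := Nat.mod (Nat.shiftRight n k) (Nat.pow 2 w)

/-- The bit `k` of `n`. -/
def bitN (n k : Nat) : Bool := Nat.beq (Nat.mod (Nat.shiftRight n k) 2) 1

/-- Labels. -/
def lbN : Nat → Lb
  | 0 => Lb.s0 | 1 => Lb.s1 | 2 => Lb.s2 | 3 => Lb.s3 | 4 => Lb.o | _ => Lb.p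

/-- Optional labels. -/
def olbN : Nat → Option Lb
  | 0 => some Lb.s0 | 1 => some Lb.s1 | 2 => some Lb.s2 | 3 => some Lb.s3 | 4 => some Lb.o
  | 5 => some Lb.p | _ => none

/-- States. -/
def stN (n : Nat) : St :=
  match Nat.div n 4 with
  | 0 => St.N (bitN n 1) (bitN n 0)
  | 1 => St.S (bitN n 1) (bitN n 0)
  | _ => St.E (bitN (Nat.sub n 8) 3) (bitN (Nat.sub n 8) 2) (bitN (Nat.sub n 8) 1)
      (bitN (Nat.sub n 8) 0)

/-- Integers, shifted by eight. -/
def intN (n : Nat) : ℤ := Int.subNatNat n 8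

/-- Cells of a segment. -/
def cellsN : Nat → Nat → List Cell
  | 0, _ => []
  | k + 1, n => ⟨lbN (fld n 0 3), (intN (fld n 3 4), intN (fld n 7 4)), lbN (fld n 11 3)⟩ ::
      cellsN k (Nat.shiftRight n 14)

/-- A segment together with its entry side. -/
structure SegE where
  X : Lb
  Y : Lb
  s : St
  cells : List Cell
  q : ℤ × ℤ
  F : Lb
  Z : Lb
  t : St
  C : Option Lb

/-- Decoding of segments. -/
def segN (n : Nat) : SegE where
  X := lbN (fld n 0 3)
  Y := lbN (fld n 3 3)
  F := lbN (fld n 6 3)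
  Z := lbN (fld n 9 3)
  C := olbN (fld n 12 3)
  s := stN (fld n 15 5)
  t := stN (fld n 20 5)
  q := (intN (fld n 25 4), intN (fld n 29 4))
  cells := cellsN (fld n 33 3) (Nat.shiftRight n 36)

/-- Validity of a packed segment. -/
def segOKB (e : SegE) : Bool := segB e.cells e.s e.t e.q e.X e.Y e.F e.Z e.C

/-- Decoding of claims. -/
def clmN (n : Nat) : Clm where
  i := lbN (fld n 0 3)
  j := lbN (fld n 3 3)
  g := olbN (fld n 6 3)
  s := stN (fld n 9 5)
  t := stN (fld n 14 5)

/-- The step with code `c` (bit 0: kind; the rest: index in the table). -/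
def stepN (segAt : Nat → SegE) (clmAt : Nat → Clm) (c : Nat) : Step :=
  match bitN c 0 with
  | true => Step.kid (clmAt (Nat.div c 2))
  | false =>
    match segAt (Nat.div c 2) with
    | ⟨_, _, s, cells, q, F, Z, t, C⟩ => Step.seg s cells q F Z t C

/-- Fast validity of a route; the segments are looked up in a verified table. -/
def routeF (segAt : Nat → SegE) (clmAt : Nat → Clm) (ns : Nat)
    (ex : Lb → Bool) (j0 : Lb) (t0 : St) (G : Option Lb) :
    List Nat → Lb → Lb → St → List Lb → Option Lb → Bool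
  | [], Z, F, cur, used, car => decide (Z = Lb.p) && decide (F = j0) && t0.leB cur &&
      ([Lb.s0, Lb.s1, Lb.s2, Lb.s3, Lb.o].all fun X => decide (X ∈ used)) &&
      decide (car = G)
  | c :: cs, Z, F, cur, used, car =>
    match bitN c 0 with
    | true =>
      match clmAt (Nat.div c 2) with
      | κ =>
      decide (Z ≠ Lb.p) && !(ex Z) && F.perp Z && decide (Z ∉ used) && decide (Z.ordL κ.i = F) &&
      Z.perp (Z.ordL κ.j) && κ.s.leB cur &&
      (match κ.g with
        | none => true
        | some m => Z.perp (Z.ordL m)) &&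
      (match fillOf Z κ with
        | none => true
        | some W => ex W && decide (W ∉ used) && decide (W ≠ Z)) &&
      (decide (car = none) || decide (carryOf Z κ = none)) &&
      routeF segAt clmAt ns ex j0 t0 G cs (Z.ordL κ.j) Z κ.t
        ((fillOf Z κ).toList ++ Z :: used) (car.or (carryOf Z κ))
    | false =>
      match segAt (Nat.div c 2) with
      | ⟨X, Y, s, cells, _, F', Z', t, C⟩ =>
      Nat.blt (Nat.div c 2) ns && decide (X = Z) && decide (Y = F) &&
      s.leB cur && F.perp Z && decide (Z ≠ Lb.p) &&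
      (cells.all fun c => ex c.lab && decide (c.lab ≠ Lb.p) && decide (c.lab ∉ used)) &&
      (decide (car = none) || decide (C = none)) &&
      routeF segAt clmAt ns ex j0 t0 G cs Z' F' t (cells.map Cell.lab ++ used) (car.or C)

theorem routeF_routeB {segAt : Nat → SegE} {clmAt : Nat → Clm} {ns : Nat}
    (hseg : ∀ i < ns, segOKB (segAt i) = true) (ex : Lb → Bool) (j0 : Lb) (t0 : St)
    (G : Option Lb) : ∀ (cs : List Nat) (Z F : Lb) (cur : St) (used : List Lb) (car : Option Lb),
      routeF segAt clmAt ns ex j0 t0 G cs Z F cur used car = true →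
      routeB ex j0 t0 G (cs.map (stepN segAt clmAt)) Z F cur used car = true
  | [], Z, F, cur, used, car, h => h
  | c :: cs, Z, F, cur, used, car, h => by
    rw [routeF] at h
    rw [List.map_cons, stepN]
    cases hb : bitN c 0 with
    | true =>
      rw [hb] at h
      simp only [routeB]
      simp only [Bool.and_eq_true] at h ⊢
      exact ⟨h.1, routeF_routeB hseg ex j0 t0 G cs _ _ _ _ _ h.2⟩
    | false =>
      rw [hb] at h
      simp only at h ⊢
      have hs := hseg (Nat.div c 2)
      rcases he : segAt (Nat.div c 2) with ⟨X, Y, s, cells, q, F', Z', t, C⟩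
      rw [he] at h hs
      simp only [Bool.and_eq_true, decide_eq_true_eq] at h
      obtain ⟨⟨⟨⟨⟨⟨⟨⟨hlt, hX⟩, hY⟩, h1⟩, h2⟩, h3⟩, h4⟩, h5⟩, h6⟩ := h
      subst hX hY
      have hlt' : Nat.div c 2 < ns := by
        rw [Nat.blt_eq] at hlt
        exact hlt
      have hs' := hs hlt'
      simp only [segOKB] at hs'
      simp only [routeB, Bool.and_eq_true, decide_eq_true_eq]
      exact ⟨⟨⟨⟨⟨⟨h1, h2⟩, h3⟩, hs'⟩, h4⟩, h5⟩, routeF_routeB hseg ex j0 t0 G cs _ _ _ _ _ h6⟩

end Pool.Agent.Helper36.UF
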