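import Pool.Agent.Helper36.UF.Av

/-!
# Kernel check of the witnesses (project UF, MP_409f7f_co)
-/

namespace Pool.Agent.Helper36.UF

open Pool.Agent.Helper17.UF

set_option maxRecDepth 100000

theorem wit_ok : chkW 0 witL = true := by decide +kernel

theorem wit_len : witL.length = nClm := by decide +kernel

theorem rep_all : ((List.range nRep).all repOK) = true := by decide +kernel

theorem rep_ok : ∀ i < nRep, repOK i = true := by
  intro i hi
  have h := rep_all
  rw [List.all_eq_true] at h
  exact h i (List.mem_range.2 hi)

end Pool.Agent.Helper36.UF
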