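import Pool.Agent.Helper36.UF.Sound

/-!
# Kernel check of the routes and of the covers (project UF, MP_409f7f_co)
-/

namespace Pool.Agent.Helper36.UF

open Pool.Agent.Helper17.UF

set_option maxRecDepth 100000

theorem am_ok : amOK = true := by decide +kernel

theorem fin_ok : finB = true := by decide +kernel

theorem r17_0 : ((dat 17 0).all fun T => chkR 17 T) = true := by decide +kernel

theorem r17_2 : ((dat 17 2).all fun T => chkR 17 T) = true := by decide +kernel

theorem p17 : chkP (dat 17 0) (dat 17 2) = true := by decide +kernel

theorem all_ok : (canon.all fun c => Nat.beq c 17 ||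
    (dat c 0).all fun T => chkR c T && chkC c T) = true := by decide +kernel

end Pool.Agent.Helper36.UF
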