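import Pool.Agent.Helper36.UF.Run1
import Pool.Agent.Helper36.UF.Run2
import Pool.Agent.Helper36.UF.Run3

/-!
# The finite certificate (project UF, MP_409f7f_co)
-/

namespace Pool.Agent.Helper36.UF

open Pool.Agent.Helper17.UF

theorem avail_ok : ∀ o i, bitN (mskAt i) o = true → AvN o (clmAt i) :=
  avail_of_checks rep_ok wit_len wit_ok

/-- The certificate. -/
theorem cert : Certificate Rep where
  one := by
    intro c hc h17 K hK
    have h := all_ok
    rw [List.all_eq_true] at h
    have h1 := h c hc
    have e : Nat.beq c 17 = false := by
      rw [Bool.eq_false_iff]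
      intro hh
      exact h17 (Nat.eq_of_beq_eq_true hh)
    rw [e, Bool.false_or, List.all_eq_true] at h1
    refine reach_of_checks hc segs_ok avail_ok am_ok ?_ ?_ hK
    · intro T hT
      have h2 := h1 T hT
      rw [Bool.and_eq_true] at h2
      exact h2.1
    · intro T hT
      have h2 := h1 T hT
      rw [Bool.and_eq_true] at h2
      exact h2.2
  two := by
    refine two_of_checks segs_ok avail_ok am_ok ?_ ?_ p17
    · intro T hT
      have h := r17_0
      rw [List.all_eq_true] at h
      exact h T hT
    · intro T hT
      have h := r17_2
      rw [List.all_eq_true] at h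
      exact h T hT
  fin := fin_of_checks avail_ok fin_ok

end Pool.Agent.Helper36.UF
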