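import Pool.Agent.Helper36.UF.Data

/-!
# Kernel check of the segments (project UF, MP_409f7f_co)
-/

namespace Pool.Agent.Helper36.UF

open Pool.Agent.Helper17.UF

set_option maxRecDepth 100000

theorem segs_all : ((List.range nSeg).all fun i => segOKB (segAt i)) = true := by decide +kernel

theorem segs_ok : ∀ i < nSeg, segOKB (segAt i) = true := by
  intro i hi
  have h := segs_all
  rw [List.all_eq_true] at h
  exact h i (List.mem_range.2 hi)

end Pool.Agent.Helper36.UF
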