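import Pool.Agent.Helper36.UF.Av

/-!
# Soundness of the packed checks (project UF, MP_409f7f_co)
-/

namespace Pool.Agent.Helper36.UF

open Pool.Agent.Helper17.UF

theorem bitN_eq (n k : Nat) : bitN n k = n.testBit k := by
  have h : Nat.mod (Nat.shiftRight n k) 2 = n / 2 ^ k % 2 := by
    show (n >>> k) % 2 = _
    rw [Nat.shiftRight_eq_div_pow]
  rw [Nat.testBit_eq_decide_div_mod_eq, bitN, h]
  rw [Bool.eq_iff_iff, Nat.beq_eq, decide_eq_true_eq]

theorem bitN_land (a b k : Nat) : bitN (Nat.land a b) k = (bitN a k && bitN b k) := by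
  rw [bitN_eq, bitN_eq, bitN_eq]
  exact Nat.testBit_and a b k

theorem bitN_lor (a b k : Nat) : bitN (Nat.lor a b) k = (bitN a k || bitN b k) := by
  rw [bitN_eq, bitN_eq, bitN_eq]
  exact Nat.testBit_or a b k

/-- Availability for a coded option. -/
def AvN (o : Nat) (τ : Clm) : Prop := Avail Rep (o % 32) (o / 32) τ

theorem maskF_sound {X : Lb} {o : Nat}
    (hav : ∀ i, bitN (mskAt i) o = true → AvN o (clmAt i)) :
    ∀ (cs : List Nat) (Z : Lb) (acc : Nat), bitN (maskF X cs Z acc) o = true →
      bitN acc o = true ∧ ∀ Xτ ∈ needs (cs.map (stepN segAt clmAt)) Z, Xτ.1 = X → AvN o Xτ.2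
  | [], Z, acc, h => ⟨h, by intro x hx; simp [needs] at hx⟩
  | c :: cs, Z, acc, h => by
    rw [List.map_cons, stepN]
    rw [maskF] at h
    cases hb : bitN c 0 with
    | true =>
      rw [hb] at h
      simp only at h ⊢
      obtain ⟨h1, h2⟩ := maskF_sound hav cs _ _ h
      by_cases hZ : Z = X
      · simp only [hZ, decide_true, bitN_land, Bool.and_eq_true] at h1
        refine ⟨h1.1, ?_⟩
        intro x hx hX
        rw [needs, List.mem_cons] at hx
        rcases hx with rfl | hx
        · exact hav _ h1.2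
        · exact h2 x hx hX
      · simp only [hZ, decide_false] at h1
        refine ⟨h1, ?_⟩
        intro x hx hX
        rw [needs, List.mem_cons] at hx
        rcases hx with rfl | hx
        · exact absurd hX hZ
        · exact h2 x hx hX
    | false =>
      rw [hb] at h
      rcases he : segAt (Nat.div c 2) with ⟨X', Y, s, cells, q, F', Z', t, C⟩
      rw [he] at h
      simp only at h ⊢
      obtain ⟨h1, h2⟩ := maskF_sound hav cs _ _ h
      exact ⟨h1, h2⟩

theorem routeF_kids {ex : Lb → Bool} {j0 : Lb} {t0 : St} {G : Option Lb} :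
    ∀ (cs : List Nat) (Z F : Lb) (cur : St) (used : List Lb) (car : Option Lb),
      routeF segAt clmAt nSeg ex j0 t0 G cs Z F cur used car = true →
      ∀ Xτ ∈ needs (cs.map (stepN segAt clmAt)) Z, Xτ.1 ≠ Lb.p ∧ ex Xτ.1 = false
  | [], Z, F, cur, used, car, h => by intro x hx; simp [needs] at hx
  | c :: cs, Z, F, cur, used, car, h => by
    rw [List.map_cons, stepN]
    rw [routeF] at h
    cases hb : bitN c 0 with
    | true =>
      rw [hb] at h
      simp only [Bool.and_eq_true] at h ⊢
      obtain ⟨h1, h2⟩ := h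
      have ih := routeF_kids cs _ _ _ _ _ h2
      intro x hx
      rw [needs, List.mem_cons] at hx
      rcases hx with rfl | hx
      · have h3 := h1.1.1.1.1.1.1.1.1
        simp only [decide_eq_true_eq, Bool.not_eq_true'] at h3
        exact h3
      · exact ih x hx
    | false =>
      rw [hb] at h
      rcases he : segAt (Nat.div c 2) with ⟨X', Y, s, cells, q, F', Z', t, C⟩
      rw [he] at h
      simp only [Bool.and_eq_true] at h ⊢
      exact routeF_kids cs _ _ _ _ _ h.2

/-- The options `os` lie in the box `B`. -/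
def Hit : List Nat → List Nat → Prop
  | _, [] => True
  | [], _ :: _ => False
  | b :: B, o :: os => bitN b o = true ∧ Hit B os

theorem hit_map {f g : Lb → Nat} : ∀ (L : List Lb), Hit (L.map f) (L.map g) →
    ∀ X ∈ L, bitN (f X) (g X) = true
  | [], _, X, hX => by simp at hX
  | Y :: L, h, X, hX => by
    rw [List.map_cons, List.map_cons, Hit] at h
    rcases List.mem_cons.1 hX with rfl | hX
    · exact h.1
    · exact hit_map L h.2 X hX

theorem hit_of_map {f g : Lb → Nat} : ∀ (L : List Lb), (∀ X ∈ L, bitN (f X) (g X) = true) →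
    Hit (L.map f) (L.map g)
  | [], _ => by rw [List.map_nil, List.map_nil]; exact True.intro
  | Y :: L, h => by
    rw [List.map_cons, List.map_cons, Hit]
    exact ⟨h Y List.mem_cons_self, hit_of_map L fun X hX => h X (List.mem_cons_of_mem _ hX)⟩

theorem orHd_sound {o : Nat} : ∀ Bs : List (List Nat), bitN (orHd Bs) o = true →
    ∃ B ∈ Bs, Hit B [o]
  | [], h => by
    rw [orHd, bitN_eq, Nat.zero_testBit] at h
    exact absurd h (by decide)
  | [] :: Bs, h => by
    rw [orHd] at h
    obtain ⟨B, hB, hh⟩ := orHd_sound Bs h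
    exact ⟨B, List.mem_cons_of_mem _ hB, hh⟩
  | (b :: B) :: Bs, h => by
    rw [orHd, bitN_lor, Bool.or_eq_true] at h
    rcases h with h | h
    · exact ⟨b :: B, List.mem_cons_self, h, by rw [Hit.eq_def]; exact True.intro⟩
    · obtain ⟨B, hB, hh⟩ := orHd_sound Bs h
      exact ⟨B, List.mem_cons_of_mem _ hB, hh⟩

theorem sel_sound {o : Nat} : ∀ (Bs : List (List Nat)) (B : List Nat), B ∈ sel o Bs →
    ∃ b, bitN b o = true ∧ (b :: B) ∈ Bs
  | [], B, h => by simp [sel] at h
  | [] :: Bs, B, h => by
    rw [sel] at h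
    obtain ⟨b, h1, h2⟩ := sel_sound Bs B h
    exact ⟨b, h1, List.mem_cons_of_mem _ h2⟩
  | (b :: B') :: Bs, B, h => by
    rw [sel] at h
    cases hb : bitN b o with
    | true =>
      rw [hb] at h
      simp only at h
      rcases List.mem_cons.1 h with rfl | h
      · exact ⟨b, hb, List.mem_cons_self⟩
      · obtain ⟨b, h1, h2⟩ := sel_sound Bs B h
        exact ⟨b, h1, List.mem_cons_of_mem _ h2⟩
    | false =>
      rw [hb] at h
      simp only at h
      obtain ⟨b, h1, h2⟩ := sel_sound Bs B h
      exact ⟨b, h1, List.mem_cons_of_mem _ h2⟩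

theorem covB_sound : ∀ (As : List Nat) (Bs : List (List Nat)) (os : List Nat),
    covB As Bs = true → As.length = os.length → (∀ o ∈ os, o ∈ optL) → Hit As os →
    ∃ B ∈ Bs, Hit B os
  | [], Bs, os, h, hl, _, _ => by
    cases Bs with
    | nil => simp [covB] at h
    | cons B Bs =>
      cases os with
      | nil => exact ⟨B, List.mem_cons_self, by rw [Hit.eq_def]; exact True.intro⟩
      | cons _ _ => simp at hl
  | [A], Bs, os, h, hl, _, hh => by
    cases os with
    | nil => simp at hl
    | cons o os =>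
      cases os with
      | cons _ _ => simp at hl
      | nil =>
        rw [covB] at h
        have e : Nat.land A (orHd Bs) = A := Nat.eq_of_beq_eq_true h
        have h1 : bitN (Nat.land A (orHd Bs)) o = true := by
          rw [e]; exact hh.1
        rw [bitN_land, Bool.and_eq_true] at h1
        exact orHd_sound Bs h1.2
  | A :: A' :: As, Bs, os, h, hl, hop, hh => by
    cases os with
    | nil => simp at hl
    | cons o os =>
      rw [covB, List.all_eq_true] at h
      · have h1 := h o (hop o List.mem_cons_self)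
        rw [hh.1] at h1
        simp only at h1
        obtain ⟨B, hB, hH⟩ := covB_sound (A' :: As) (sel o Bs) os h1
          (by simpa using hl) (fun x hx => hop x (List.mem_cons_of_mem _ hx)) hh.2
        obtain ⟨b, h2, h3⟩ := sel_sound Bs B hB
        exact ⟨b :: B, h3, h2, hH⟩
      · simp

/-- Code of an option. -/
def optN (k : ℕ × ℕ) : Nat := k.1 + 32 * k.2

theorem optN_mod {k : ℕ × ℕ} (h : k.1 < 32) : optN k % 32 = k.1 := by
  unfold optN; omega

theorem optN_div {k : ℕ × ℕ} (h : k.1 < 32) : optN k / 32 = k.2 := by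
  unfold optN; omega

/-- A target is reached for the options `K`. -/
def Good (c : Nat) (K : Lb → ℕ × ℕ) (κ : Clm) : Prop :=
  ∃ steps : List Step,
    routeB (fun X => !(has c X)) κ.j κ.t κ.g steps κ.i Lb.p κ.s [] none = true ∧
    ∀ Xτ ∈ needs steps κ.i, Avail Rep (K Xτ.1).1 (K Xτ.1).2 Xτ.2

theorem mem_kids {c : Nat} {X : Lb} : X ∈ kids c ↔ has c X = true := by
  rw [kids, List.mem_filter]
  constructor
  · exact fun h => h.2
  · intro h
    refine ⟨?_, h⟩
    cases X
    all_goals first | decide | (exact absurd h (by simp [has]))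

theorem good_of_box {c : Nat} {T : Nat × List Nat} {K : Lb → ℕ × ℕ}
    (hseg : ∀ i < nSeg, segOKB (segAt i) = true)
    (hav : ∀ o i, bitN (mskAt i) o = true → AvN o (clmAt i))
    (hR : chkR c T = true) (hK : ∀ X ∈ kids c, (K X).1 < 32)
    (hbox : ∃ B ∈ T.2.map (fun r => box c (clmN T.1) r), Hit B ((kids c).map fun X => optN (K X))) :
    Good c K (clmN T.1) := by
  obtain ⟨B, hB, hh⟩ := hbox
  obtain ⟨r, hr, rfl⟩ := List.mem_map.1 hB
  have h1 : rOK c (clmN T.1) r = true := by
    rw [chkR, List.all_eq_true] at hR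
    exact hR r hr
  rw [rOK] at h1
  refine ⟨(rt r).map (stepN segAt clmAt), routeF_routeB hseg _ _ _ _ _ _ _ _ _ _ h1, ?_⟩
  intro x hx
  have hk := routeF_kids _ _ _ _ _ _ h1 x hx
  have hk1 : x.1 ∈ kids c := by
    rw [mem_kids]
    simpa using hk.2
  have hm := hit_map (kids c) hh x.1 hk1
  have := (maskF_sound (hav (optN (K x.1))) _ _ _ hm).2 x hx rfl
  rw [AvN, optN_mod (hK _ hk1), optN_div (hK _ hk1)] at this
  exact this

theorem okOpt_lt {c : Nat} {X : Lb} {k : ℕ × ℕ} (h : okOpt c X k = true) : k.1 < 32 := by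
  simp only [okOpt, Bool.and_eq_true, decide_eq_true_eq] at h
  exact h.1.1

theorem optL_mem : ∀ a < 32, ∀ b < 3, (isTwo a = false → b = 0) → a + 32 * b ∈ optL := by
  decide

theorem okOpt_mem {c : Nat} {X : Lb} {k : ℕ × ℕ} (h : okOpt c X k = true) : optN k ∈ optL := by
  have h1 := okOpt_lt h
  simp only [okOpt, Bool.and_eq_true] at h
  have h2 := h.1.2
  by_cases ht : isTwo k.1 = true
  · rw [if_pos ht, decide_eq_true_eq] at h2
    exact optL_mem k.1 h1 k.2 h2 (fun h3 => by rw [ht] at h3; exact absurd h3 (by decide))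
  · rw [if_neg ht, decide_eq_true_eq] at h2
    exact optL_mem k.1 h1 k.2 (by omega) (fun _ => h2)

/-- Check of the masks of allowed options. -/
def amOK : Bool :=
  canon.all fun c => (kids c).all fun X => optL.all fun o =>
    !(okOpt c X (Nat.mod o 32, Nat.div o 32)) || bitN (amAt c (lbi X)) o

theorem amOK_sound (h : amOK = true) {c : Nat} (hc : c ∈ canon) {X : Lb} (hX : X ∈ kids c)
    {k : ℕ × ℕ} (hk : okOpt c X k = true) : bitN (amAt c (lbi X)) (optN k) = true := by
  simp only [amOK, List.all_eq_true] at h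
  have h1 := h c hc X hX (optN k) (okOpt_mem hk)
  have e : (Nat.mod (optN k) 32, Nat.div (optN k) 32) = k :=
    Prod.ext (optN_mod (okOpt_lt hk)) (optN_div (okOpt_lt hk))
  rw [e, hk] at h1
  simpa using h1

theorem reach_of_checks {c q : Nat} (hc : c ∈ canon)
    (hseg : ∀ i < nSeg, segOKB (segAt i) = true)
    (hav : ∀ o i, bitN (mskAt i) o = true → AvN o (clmAt i)) (ham : amOK = true)
    (hR : ∀ T ∈ dat c q, chkR c T = true) (hC : ∀ T ∈ dat c q, chkC c T = true)
    {K : Lb → ℕ × ℕ} (hK : ∀ X, has c X = true → okOpt c X (K X) = true) :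
    Reach Rep c K (Rep c q) := by
  intro κ hκ
  rw [Rep, List.mem_map] at hκ
  obtain ⟨T, hT, rfl⟩ := hκ
  refine good_of_box hseg hav (hR T hT) (fun X hX => okOpt_lt (hK X (mem_kids.1 hX))) ?_
  refine covB_sound _ _ _ (hC T hT) (by simp) ?_ ?_
  · intro o ho
    obtain ⟨X, hX, rfl⟩ := List.mem_map.1 ho
    exact okOpt_mem (hK X (mem_kids.1 hX))
  · exact hit_of_map (kids c) fun X hX => amOK_sound ham hc hX (hK X (mem_kids.1 hX))

/-- Availability from a verified witness. -/
theorem wOK_sound {τ : Clm} {o idx : Nat} {m : Bool} {r : Fin 4} {rv : Bool}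
    (hrep : ∀ i < nRep, repOK i = true) (h : wOK τ o idx m r rv = true) : AvN o τ := by
  simp only [wOK, Bool.and_eq_true] at h
  obtain ⟨⟨⟨h1, h2⟩, h3⟩, h4⟩ := h
  have h1' : idx < nRep := by
    rw [Nat.blt_eq] at h1
    exact h1
  have h5 := hrep idx h1'
  simp only [repOK, Bool.and_eq_true, List.any_eq_true] at h5
  obtain ⟨⟨⟨c, hc, hc'⟩, hq⟩, T, hT, hT'⟩ := h5
  have hc2 : c = repC idx := Nat.eq_of_beq_eq_true hc'
  have hT2 : T.1 = repK idx := Nat.eq_of_beq_eq_true hT'
  have h3' : memImg m (repC idx) (repQ idx) = o / 32 := Nat.eq_of_beq_eq_true h3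
  refine ⟨repC idx, hc2 ▸ hc, repQ idx, ?_, ?_, clmN (repK idx), ?_, m, r, rv, h2, h3', h4⟩
  · intro h17
    rw [h17] at hq
    have e : Nat.beq 17 17 = true := rfl
    rw [e] at hq
    simp only [Bool.or_eq_true] at hq
    rcases hq with hq | hq
    · exact Or.inl (Nat.eq_of_beq_eq_true hq)
    · exact Or.inr (Nat.eq_of_beq_eq_true hq)
  · intro h17
    have e : Nat.beq (repC idx) 17 = false := by
      rw [Bool.eq_false_iff]
      intro hh
      exact h17 (Nat.eq_of_beq_eq_true hh)
    rw [e] at hq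
    exact Nat.eq_of_beq_eq_true hq
  · rw [Rep, List.mem_map]
    exact ⟨T, hT, by rw [hT2]⟩

theorem wMask_sound {τ : Clm} (hrep : ∀ i < nRep, repOK i = true) {o : Nat} :
    ∀ k n, bitN (wMask τ k n) o = true → AvN o τ
  | 0, n, h => by
    rw [wMask, bitN_eq, Nat.zero_testBit] at h
    exact absurd h (by decide)
  | k + 1, n, h => by
    rw [wMask, bitN_lor, Bool.or_eq_true] at h
    rcases h with h | h
    · cases hw : wOK τ (fld n 0 7) (fld n 7 8) (bitN n 15) (rotN (fld n 16 2)) (bitN n 18) with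
      | true =>
        rw [hw] at h
        simp only at h
        have e : fld n 0 7 = o := by
          rw [bitN_eq] at h
          have h' : (2 ^ (fld n 0 7)).testBit o = true := h
          rw [Nat.testBit_two_pow] at h'
          simpa using h'
        have := wOK_sound hrep hw
        rw [e] at this
        exact this
      | false =>
        rw [hw] at h
        simp only at h
        rw [bitN_eq, Nat.zero_testBit] at h
        exact absurd h (by decide)
    · exact wMask_sound hrep k _ h

theorem chkW_sound (hrep : ∀ i < nRep, repOK i = true) :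
    ∀ (ws : List Nat) (i : Nat), chkW i ws = true → ∀ j, i ≤ j → j < i + ws.length →
      ∀ o, bitN (mskAt j) o = true → AvN o (clmAt j)
  | [], i, _, j, h1, h2, _, _ => by
    simp only [List.length_nil, Nat.add_zero] at h2
    omega
  | w :: ws, i, h, j, h1, h2, o, ho => by
    rw [chkW, Bool.and_eq_true] at h
    by_cases hij : j = i
    · subst hij
      have e : mskAt j = wMask (clmAt j) (fld w 0 8) (Nat.shiftRight w 8) :=
        Nat.eq_of_beq_eq_true h.1
      rw [e] at ho
      exact wMask_sound hrep _ _ ho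
    · refine chkW_sound hrep ws (Nat.succ i) h.2 j (by omega) ?_ o ho
      simp only [List.length_cons] at h2
      omega

theorem mskAt_zero {i : Nat} (h : ¬ i < nClm) (o : Nat) : bitN (mskAt i) o = false := by
  have e : Nat.blt i nClm = false := by
    rw [Bool.eq_false_iff]
    intro hh
    rw [Nat.blt_eq] at hh
    exact h hh
  have e2 : mskAt i = 0 := by
    rw [mskAt]
    have e' : Nat.blt i nClm = Nat.blt i 455 := rfl
    rw [e'] at e
    rw [e]
  rw [e2, bitN_eq, Nat.zero_testBit]

theorem avail_of_checks (hrep : ∀ i < nRep, repOK i = true) (hlen : witL.length = nClm)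
    (hw : chkW 0 witL = true) : ∀ o i, bitN (mskAt i) o = true → AvN o (clmAt i) := by
  intro o i h
  by_cases hi : i < nClm
  · exact chkW_sound hrep witL 0 hw i (Nat.zero_le i) (by rw [hlen]; omega) o h
  · rw [mskAt_zero hi] at h
    exact absurd h (by decide)

theorem andO_sound {a b : Nat} : ∀ (D : List (Nat × List Nat)), bitN (andO a D) b = true →
    ∀ T ∈ D, bitN (selO a T) b = true
  | [], _, T, hT => by simp at hT
  | T' :: D, h, T, hT => by
    rw [andO, bitN_land, Bool.and_eq_true] at h
    rcases List.mem_cons.1 hT with rfl | hT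
    · exact h.1
    · exact andO_sound D h.2 T hT

theorem kids17 : kids 17 = [Lb.s0, Lb.o] := by decide

theorem reach17 {q : Nat} (hseg : ∀ i < nSeg, segOKB (segAt i) = true)
    (hav : ∀ o i, bitN (mskAt i) o = true → AvN o (clmAt i))
    (hR : ∀ T ∈ dat 17 q, chkR 17 T = true)
    {K : Lb → ℕ × ℕ} (h0 : (K Lb.s0).1 < 32) (ho : (K Lb.o).1 < 32)
    (hK : bitN (andO (optN (K Lb.s0)) (dat 17 q)) (optN (K Lb.o)) = true) :
    Reach Rep 17 K (Rep 17 q) := by
  intro κ hκ
  rw [Rep, List.mem_map] at hκ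
  obtain ⟨T, hT, rfl⟩ := hκ
  refine good_of_box hseg hav (hR T hT) ?_ ?_
  · intro X hX
    rw [kids17] at hX
    simp only [List.mem_cons, List.not_mem_nil, or_false] at hX
    rcases hX with rfl | rfl
    · exact h0
    · exact ho
  · have h1 := andO_sound _ hK T hT
    rw [selO] at h1
    obtain ⟨B, hB, hh⟩ := orHd_sound _ h1
    obtain ⟨b, h2, h3⟩ := sel_sound _ _ hB
    refine ⟨b :: B, h3, ?_⟩
    rw [kids17]
    exact ⟨h2, hh⟩

theorem mirO_lt {k : ℕ × ℕ} : (mirO k).1 < 32 := by
  rw [mirO, mirC]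
  simp only
  split_ifs <;> decide

theorem mirN_optN {k : ℕ × ℕ} (h : k.1 < 32) : mirN (optN k) = optN (mirO k) := by
  have e : (Nat.mod (optN k) 32, Nat.div (optN k) 32) = k :=
    Prod.ext (optN_mod h) (optN_div h)
  rw [mirN, e]
  rfl

theorem two_of_checks (hseg : ∀ i < nSeg, segOKB (segAt i) = true)
    (hav : ∀ o i, bitN (mskAt i) o = true → AvN o (clmAt i)) (ham : amOK = true)
    (hR0 : ∀ T ∈ dat 17 0, chkR 17 T = true) (hR2 : ∀ T ∈ dat 17 2, chkR 17 T = true)
    (hP : chkP (dat 17 0) (dat 17 2) = true) :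
    ∀ K : Lb → ℕ × ℕ, (∀ X, has 17 X = true → okOpt 17 X (K X) = true) →
    Reach Rep 17 K (Rep 17 0) ∨ Reach Rep 17 (fun X => mirO (K X)) (Rep 17 0) ∨
      (Reach Rep 17 K (Rep 17 2) ∧ Reach Rep 17 (fun X => mirO (K X)) (Rep 17 2)) := by
  intro K hK
  have k0 := hK Lb.s0 (by decide)
  have ko := hK Lb.o (by decide)
  have l0 := okOpt_lt k0
  have lo := okOpt_lt ko
  have c17 : 17 ∈ canon := by decide
  have a0 := amOK_sound ham c17 (X := Lb.s0) (by decide) k0
  have ao := amOK_sound ham c17 (X := Lb.o) (by decide) ko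
  simp only [chkP, List.all_eq_true] at hP
  have h1 := hP _ (okOpt_mem k0)
  have e0 : amAt 17 0 = amAt 17 (lbi Lb.s0) := rfl
  have eo : amAt 17 4 = amAt 17 (lbi Lb.o) := rfl
  rw [e0, a0] at h1
  simp only [List.all_eq_true] at h1
  have h2 := h1 _ (okOpt_mem ko)
  rw [eo, ao] at h2
  simp only [Bool.or_eq_true, Bool.and_eq_true] at h2
  rw [mirN_optN l0, mirN_optN lo] at h2
  rcases h2 with (h2 | h2) | h2
  · exact Or.inl (reach17 hseg hav hR0 l0 lo h2)
  · exact Or.inr (Or.inl (reach17 hseg hav hR0 mirO_lt mirO_lt h2))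
  · exact Or.inr (Or.inr ⟨reach17 hseg hav hR2 l0 lo h2.1,
      reach17 hseg hav hR2 mirO_lt mirO_lt h2.2⟩)

/-- Search for a claim without a reserved cell. -/
def finB : Bool :=
  optL.all fun o => (List.range nClm).any fun i =>
    (match (clmAt i).g with
      | none => true
      | some _ => false) && bitN (mskAt i) o

theorem fin_of_checks (hav : ∀ o i, bitN (mskAt i) o = true → AvN o (clmAt i))
    (hf : finB = true) : ∀ c < 32, ∀ q : ℕ, (if isTwo c then q < 3 else q = 0) →
    ∃ τ : Clm, τ.g = none ∧ Avail Rep c q τ := by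
  intro c hc q hq
  have hm : optN (c, q) ∈ optL := by
    by_cases ht : isTwo c = true
    · rw [if_pos ht] at hq
      exact optL_mem c hc q hq (fun h3 => by rw [ht] at h3; exact absurd h3 (by decide))
    · rw [if_neg ht] at hq
      exact optL_mem c hc q (by omega) (fun _ => hq)
  simp only [finB, List.all_eq_true] at hf
  have h1 := hf _ hm
  rw [List.any_eq_true] at h1
  obtain ⟨i, -, h2⟩ := h1
  rw [Bool.and_eq_true] at h2
  refine ⟨clmAt i, ?_, ?_⟩
  · cases hg : (clmAt i).g with
    | none => rfl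
    | some x =>
      rw [hg] at h2
      exact absurd h2.1 (by simp)
  · have := hav _ _ h2.2
    rw [AvN, optN_mod (k := (c, q)) hc, optN_div (k := (c, q)) hc] at this
    exact this

end Pool.Agent.Helper36.UF
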